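import Pool.Agent.Q166.MW.D

set_option autoImplicit false

namespace Pool.Agent.Results.MP_182b9e_gt.OnlyForPoint

open MeasureTheory

/-- The mean width `w(K) = (2 / (n κ_n)) ∫_{S^{n-1}} h_K(u) du`: here `h_K(u)` is the supremum of
`⟨y, u⟩` over `y ∈ K`, `κ_n` is the volume of the unit ball, and `du` is the surface measure. -/
noncomputable def meanWidth {n : ℕ} (K : Set (EuclideanSpace ℝ (Fin n))) : ℝ :=
  2 / (n * (volume (Metric.ball (0 : EuclideanSpace ℝ (Fin n)) 1)).toReal) *
    ∫ u : Metric.sphere (0 : EuclideanSpace ℝ (Fin n)) 1,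
      sSup ((fun y : EuclideanSpace ℝ (Fin n) => inner ℝ y (u : EuclideanSpace ℝ (Fin n))) '' K)
        ∂((volume : Measure (EuclideanSpace ℝ (Fin n))).toSphere)

/-- The class `𝓑`: all nonempty compact convex sets if `b = false`, all convex bodies (nonempty
interior) if `b = true`. -/
def InClass {n : ℕ} (b : Bool) (K : Set (EuclideanSpace ℝ (Fin n))) : Prop :=
  IsCompact K ∧ Convex ℝ K ∧ K.Nonempty ∧ (b = true → (interior K).Nonempty)

/-- `K` is symmetric with respect to `H`: it is mapped into itself (hence onto itself) by the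
reflection `x ↦ 2 (x|H) - x`. -/
def HSymmetric {n : ℕ} (H : Submodule ℝ (EuclideanSpace ℝ (Fin n)))
    (K : Set (EuclideanSpace ℝ (Fin n))) : Prop :=
  ∀ x ∈ K, H.reflection x ∈ K

/-- `D` is a monotonic, mean width preserving symmetrization with respect to `H` on the class
selected by `b` that fixes every `H`-symmetric member of the class. -/
structure IsSymmetrization {n : ℕ} (H : Submodule ℝ (EuclideanSpace ℝ (Fin n))) (b : Bool)
    (D : Set (EuclideanSpace ℝ (Fin n)) → Set (EuclideanSpace ℝ (Fin n))) : Prop where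
  maps : ∀ K, InClass b K → InClass b (D K) ∧ HSymmetric H (D K)
  monotonic : ∀ K L, InClass b K → InClass b L → K ⊆ L → D K ⊆ D L
  width : ∀ K, InClass b K → meanWidth (D K) = meanWidth K
  fixes : ∀ K, InClass b K → HSymmetric H K → D K = K

/-- For `n ≥ 2`, a linear subspace `H` of `ℝⁿ` and either class of sets, a monotonic, mean width
preserving symmetrization with respect to `H` that fixes every `H`-symmetric set and fails to be
invariant under translations orthogonal to `H` of `H`-symmetric sets exists if and only if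
`dim H = 0`. -/
theorem result (n : ℕ) (hn : 2 ≤ n) (H : Submodule ℝ (EuclideanSpace ℝ (Fin n))) (b : Bool) :
    (∃ D : Set (EuclideanSpace ℝ (Fin n)) → Set (EuclideanSpace ℝ (Fin n)),
      IsSymmetrization H b D ∧
      ∃ K : Set (EuclideanSpace ℝ (Fin n)), InClass b K ∧ HSymmetric H K ∧
        ∃ y ∈ Hᗮ, D ((fun z => z + y) '' K) ≠ D K) ↔ Module.finrank ℝ H = 0 := by
  constructor
  · rintro ⟨D, hD, K, hK, hS, y, hy, hne⟩
    by_contra h0
    have hH : H ≠ ⊥ := by
      rintro rfl
      exact h0 (finrank_bot ℝ _)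
    have hI : Q166.MW.IsSymm H b D :=
      ⟨fun K hK => (hD.maps K hK).1, fun K hK => (hD.maps K hK).2, hD.monotonic, hD.width,
        hD.fixes⟩
    have hO := (Q166.MW.isSymm_iff (by omega)).1 hI
    apply hne
    rw [Q166.MW.main hH hO hK hS hy, hD.fixes K hK hS]
  · intro h0
    have hH : H = ⊥ := Submodule.finrank_eq_zero.1 h0
    subst hH
    obtain ⟨D, hD, K, hK, hS, y, hy, hne⟩ := Q166.MW.exotic hn b
    exact ⟨D, ⟨fun K hK => ⟨hD.body K hK, hD.symm K hK⟩, hD.mono, hD.width, hD.fix⟩, K, hK, hS, y,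
      hy, hne⟩

end Pool.Agent.Results.MP_182b9e_gt.OnlyForPoint
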